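import Pool.Agent.H56.ID.Defs

/-!
# OPS: every element of the algebra generated by the `x_j` and `∂_j` has a normal form

Proof.  Say that `Φ` is an operator if `∃ P : WeylS n, ∀ c h, P.act c h = Φ h`.  (1) `0`, `1` (`P = Finsupp.single 0 1`; `diffPow 0 = 1`), sums and scalar multiples of operators are
operators (`Finsupp.sum_add_index'`, `map_add`).  (2) If `Φ` is an operator so is `mulE (X j) * Φ` (`P.mapRange`/`sum` with `p ↦ X j * p`).  (3) If `Φ` is an operator so is
`dE j * Φ`: it suffices (`Finsupp.induction_linear`) for `P = single β p`: `∂_j (p(c) ∂^β h) = (∂_j p)(c) ∂^β h + p(c) ∂^{β + e_j} h`, so take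
`single β (pderiv j p) + single (β + single j 1) p`; here `pderiv j (map φ p) = map φ (pderiv j p)` (`MvPolynomial.pderiv_map`) and `diffPow (β + single j 1) h = pderiv j (diffPow β h)` (partial
derivatives commute; `diffPow` is a product over `List.finRange n`, e.g. prove `diffPow β` commutes with `pderiv j` and compare factor by factor, or compare both sides on
monomials with `pderiv_monomial`).  (4) So for `Ψ ∈ WA n` and every operator `Φ`, `Ψ * Φ` is an operator (`Algebra.adjoin_induction`: generators (2), (3); scalars; sums; products);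
take `Φ = 1`.
-/

set_option autoImplicit false

namespace Pool.Agent.H56.ID

open Finset MvPolynomial
open Pool.Agent.H22

theorem OPS_comm {n : ℕ} (i j : Fin n) : Commute (dE i) (dE j) := by
  have h : ⁅(pderiv i : Derivation ℂ (MvPolynomial (Fin n) ℂ) (MvPolynomial (Fin n) ℂ)),
      (pderiv j : Derivation ℂ (MvPolynomial (Fin n) ℂ) (MvPolynomial (Fin n) ℂ))⁆ = 0 := by
    refine MvPolynomial.derivation_ext fun k => ?_
    rw [Derivation.commutator_apply, pderiv_X, pderiv_X, Derivation.zero_apply]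
    have h1 : ∀ (a b : Fin n), pderiv a ((Pi.single b (1 : MvPolynomial (Fin n) ℂ) :
        Fin n → MvPolynomial (Fin n) ℂ) k) = 0 := by
      intro a b
      by_cases h2 : k = b
      · subst h2
        rw [Pi.single_eq_same]
        exact Derivation.map_one_eq_zero _
      · rw [Pi.single_eq_of_ne h2, map_zero]
    rw [h1, h1, sub_zero]
  refine LinearMap.ext fun f => ?_
  have h2 : ⁅(pderiv i : Derivation ℂ (MvPolynomial (Fin n) ℂ) (MvPolynomial (Fin n) ℂ)),
      (pderiv j : Derivation ℂ (MvPolynomial (Fin n) ℂ) (MvPolynomial (Fin n) ℂ))⁆ f = 0 := by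
    rw [h]
    rfl
  rw [Derivation.commutator_apply] at h2
  exact sub_eq_zero.1 h2

theorem OPS_list {n : ℕ} (β : Fin n →₀ ℕ) (j : Fin n) (l : List (Fin n)) : l.Nodup →
    (j ∉ l → (l.map fun k => dE k ^ ((β + Finsupp.single j 1 : Fin n →₀ ℕ) k)).prod =
      (l.map fun k => dE k ^ (β k)).prod) ∧
    (j ∈ l → (l.map fun k => dE k ^ ((β + Finsupp.single j 1 : Fin n →₀ ℕ) k)).prod =
      dE j * (l.map fun k => dE k ^ (β k)).prod) := by
  induction l with
  | nil => exact fun _ => ⟨fun _ => rfl, fun h => absurd h List.not_mem_nil⟩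
  | cons k l ih =>
    intro hl
    rw [List.nodup_cons] at hl
    obtain ⟨ih1, ih2⟩ := ih hl.2
    rw [List.map_cons, List.prod_cons, List.map_cons, List.prod_cons]
    refine ⟨fun h => ?_, fun h => ?_⟩
    · rw [List.mem_cons, not_or] at h
      rw [ih1 h.2, Finsupp.add_apply, Finsupp.single_eq_of_ne (Ne.symm h.1), add_zero]
    · by_cases hk : k = j
      · subst hk
        rw [ih1 hl.1, Finsupp.add_apply, Finsupp.single_eq_same, pow_succ', mul_assoc]
      · have h1 : j ∈ l := by
          rcases List.mem_cons.1 h with h2 | h2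
          · exact absurd h2.symm hk
          · exact h2
        rw [ih2 h1, Finsupp.add_apply, Finsupp.single_eq_of_ne hk, add_zero, ← mul_assoc,
          ← mul_assoc, ((OPS_comm k j).pow_left (β k)).eq]

theorem OPS_diffPow {n : ℕ} (β : Fin n →₀ ℕ) (j : Fin n) (h : MvPolynomial (Fin n) ℂ) :
    diffPow (β + Finsupp.single j 1) h = pderiv j (diffPow β h) := by
  have h1 := (OPS_list β j (List.finRange n) (List.nodup_finRange n)).2 (List.mem_finRange j)
  have h2 : diffPow (β + Finsupp.single j 1) = dE j * diffPow β := h1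
  rw [h2]
  rfl

theorem OPS_zero {n : ℕ} : diffPow (0 : Fin n →₀ ℕ) = LinearMap.id := by
  have h1 : ((List.finRange n).map fun j => (dE j : Module.End ℂ (MvPolynomial (Fin n) ℂ)) ^
      ((0 : Fin n →₀ ℕ) j)).prod = 1 := by
    refine List.prod_eq_one fun x hx => ?_
    obtain ⟨j, -, rfl⟩ := List.mem_map.1 hx
    rw [Finsupp.zero_apply, pow_zero]
  exact h1

theorem OPS_single {n : ℕ} (β : Fin n →₀ ℕ) (p : MvPolynomial (Fin n) (Polynomial ℂ)) (c : ℂ)
    (h : MvPolynomial (Fin n) ℂ) : WeylS.act (Finsupp.single β p) c h =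
      MvPolynomial.map (Polynomial.evalRingHom c) p * diffPow β h := by
  unfold WeylS.act
  rw [Finsupp.sum_single_index]
  rw [map_zero, zero_mul]

theorem OPS_add {n : ℕ} (P Q : WeylS n) (c : ℂ) (h : MvPolynomial (Fin n) ℂ) :
    WeylS.act (P + Q) c h = P.act c h + Q.act c h := by
  unfold WeylS.act
  exact Finsupp.sum_add_index' (fun β => by rw [map_zero, zero_mul])
    (fun β p q => by rw [map_add, add_mul])

theorem OPS_mul {n : ℕ} (q : MvPolynomial (Fin n) ℂ) (P : WeylS n) :
    ∃ P' : WeylS n, ∀ (c : ℂ) (h : MvPolynomial (Fin n) ℂ), P'.act c h = q * P.act c h := by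
  refine ⟨P.mapRange (fun p => MvPolynomial.map Polynomial.C q * p) (mul_zero _), fun c h => ?_⟩
  unfold WeylS.act
  rw [Finsupp.sum_mapRange_index (fun β => by rw [map_zero, zero_mul]), Finsupp.mul_sum]
  refine Finsupp.sum_congr fun β _ => ?_
  have h1 : (Polynomial.evalRingHom c).comp Polynomial.C = RingHom.id ℂ := by
    ext x
    simp
  rw [map_mul, MvPolynomial.map_map, h1, MvPolynomial.map_id, mul_assoc]

theorem OPS_der {n : ℕ} (j : Fin n) (P : WeylS n) :
    ∃ P' : WeylS n, ∀ (c : ℂ) (h : MvPolynomial (Fin n) ℂ), P'.act c h = pderiv j (P.act c h) := by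
  induction P using Finsupp.induction_linear with
  | zero =>
    refine ⟨0, fun c h => ?_⟩
    unfold WeylS.act
    rw [Finsupp.sum_zero_index, map_zero]
  | add P Q hP hQ =>
    obtain ⟨P', hP'⟩ := hP
    obtain ⟨Q', hQ'⟩ := hQ
    refine ⟨P' + Q', fun c h => ?_⟩
    rw [OPS_add, OPS_add, hP', hQ', map_add]
  | single β p =>
    refine ⟨Finsupp.single β (pderiv j p) + Finsupp.single (β + Finsupp.single j 1) p,
      fun c h => ?_⟩
    rw [OPS_add, OPS_single, OPS_single, OPS_single, OPS_diffPow, pderiv_mul, pderiv_map]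

/-- Normal forms exist. -/
theorem exists_act {n : ℕ} (Φ : Module.End ℂ (MvPolynomial (Fin n) ℂ)) (hΦ : Φ ∈ WA n) :
    ∃ P : WeylS n, ∀ (c : ℂ) (h : MvPolynomial (Fin n) ℂ), P.act c h = Φ h := by
  have key : ∀ Ψ ∈ WA n, ∀ P : WeylS n, ∃ P' : WeylS n,
      ∀ (c : ℂ) (h : MvPolynomial (Fin n) ℂ), P'.act c h = Ψ (P.act c h) := by
    intro Ψ hΨ
    unfold WA at hΨ
    induction hΨ using Algebra.adjoin_induction with
    | mem x hx =>
      intro P
      rcases hx with ⟨j, rfl⟩ | ⟨j, rfl⟩
      · exact OPS_mul (X j) P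
      · exact OPS_der j P
    | algebraMap r =>
      intro P
      obtain ⟨P', hP'⟩ := OPS_mul (C r) P
      refine ⟨P', fun c h => ?_⟩
      rw [hP', Module.algebraMap_end_apply, MvPolynomial.smul_eq_C_mul]
    | add x y _ _ hx hy =>
      intro P
      obtain ⟨P', hP'⟩ := hx P
      obtain ⟨Q', hQ'⟩ := hy P
      refine ⟨P' + Q', fun c h => ?_⟩
      rw [OPS_add, hP', hQ', LinearMap.add_apply]
    | mul x y _ _ hx hy =>
      intro P
      obtain ⟨P', hP'⟩ := hy P
      obtain ⟨Q', hQ'⟩ := hx P'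
      refine ⟨Q', fun c h => ?_⟩
      rw [hQ', hP', Module.End.mul_apply]
  obtain ⟨P', hP'⟩ := key Φ hΦ (Finsupp.single 0 1)
  refine ⟨P', fun c h => ?_⟩
  rw [hP', OPS_single, map_one, one_mul, OPS_zero, LinearMap.id_apply]

end Pool.Agent.H56.ID
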