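import Pool.Agent.H22.Defs

/-!
# Bernstein-Sato functional equations of ideals: definitions

`WeylR N r` = `D[s_1,…,s_r]`, `D` the Weyl algebra of `ℂ[x_1,…,x_N]`; `IdealFE f b T P` = the
functional equation which defines the Bernstein-Sato polynomial of the ideal `(f_1,…,f_r)`.
-/

set_option autoImplicit false

namespace Pool.Agent.H56.ID

open Finset MvPolynomial
open Pool.Agent.H22

/-- `P = Σ_β p_β(x,s_1,…,s_r) ∂^β`, an element of `D[s_1,…,s_r]` written in normal form. -/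
abbrev WeylR (N r : ℕ) := (Fin N →₀ ℕ) →₀ MvPolynomial (Fin N) (MvPolynomial (Fin r) ℂ)

/-- `P(c) g`: specialise `s = c ∈ ℂ^r` in `P` and apply the operator to `g`. -/
noncomputable def WeylR.act {N r : ℕ} (P : WeylR N r) (c : Fin r → ℂ)
    (g : MvPolynomial (Fin N) ℂ) : MvPolynomial (Fin N) ℂ :=
  P.sum fun β p => MvPolynomial.map (MvPolynomial.eval c) p * diffPow β g

/-- The functional equation
`b(s_1+⋯+s_r) ∏ f_i^{s_i} = Σ_{c ∈ T} P_c ∏_{c_i<0} binom(s_i,-c_i) ∏ f_i^{s_i+c_i}`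
of the ideal `(f_1,…,f_r)`, where `T` is a finite set of `c ∈ ℤ^r` with `Σ c_i = 1`, at all
`s = k ∈ ℕ^r` (the binomial coefficient is `0` if `k_i + c_i < 0`). -/
def IdealFE {N r : ℕ} (f : Fin r → MvPolynomial (Fin N) ℂ) (b : Polynomial ℂ)
    (T : Finset (Fin r → ℤ)) (P : (Fin r → ℤ) → WeylR N r) : Prop :=
  (∀ c ∈ T, ∑ i, c i = 1) ∧ ∀ k : Fin r → ℕ,
    C (b.eval (∑ i, (k i : ℂ))) * ∏ i, f i ^ k i =
      ∑ c ∈ T, (P c).act (fun i => (k i : ℂ))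
        (C (∏ i with c i < 0, ((k i).choose (c i).natAbs : ℂ)) *
          ∏ i, f i ^ ((k i : ℤ) + c i).toNat)

/-- The exponents `(e_i; q_i-th unit vector)` of `Σ_i κ_i y_{q_i} x^{e_i}`. -/
noncomputable def yexp {N r R : ℕ} (e : Fin R → (Fin N →₀ ℕ)) (q : Fin R → Fin r) (i : Fin R) :
    Fin (N + r) →₀ ℕ :=
  Finsupp.equivFunOnFinite.symm (Fin.append (e i) (Pi.single (q i) 1))

/-- The generators `f_j = Σ_{q_i = j} κ_i x^{e_i}`. -/
noncomputable def gens {N r R : ℕ} (e : Fin R → (Fin N →₀ ℕ)) (q : Fin R → Fin r)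
    (κ : Fin R → ℂ) (j : Fin r) : MvPolynomial (Fin N) ℂ :=
  ∑ i with q i = j, monomial (e i) (κ i)

/-! Tools for the proof. -/

/-- The embedding `ℂ[x] → ℂ[x,y]`. -/
noncomputable def xin {N : ℕ} (r : ℕ) : MvPolynomial (Fin N) ℂ →ₐ[ℂ] MvPolynomial (Fin (N + r)) ℂ :=
  rename (Fin.castAdd r)

/-- `y^k`. -/
noncomputable def ypow {r : ℕ} (N : ℕ) (k : Fin r → ℕ) : MvPolynomial (Fin (N + r)) ℂ :=
  ∏ j, X (Fin.natAdd N j) ^ k j

/-- Multiplication by a polynomial. -/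
noncomputable def mulE {n : ℕ} (p : MvPolynomial (Fin n) ℂ) :
    Module.End ℂ (MvPolynomial (Fin n) ℂ) := LinearMap.mulLeft ℂ p

/-- The derivative. -/
noncomputable def dE {n : ℕ} (j : Fin n) : Module.End ℂ (MvPolynomial (Fin n) ℂ) :=
  (pderiv j : Derivation ℂ (MvPolynomial (Fin n) ℂ) (MvPolynomial (Fin n) ℂ)).toLinearMap

theorem mulE_apply {n : ℕ} (p h : MvPolynomial (Fin n) ℂ) : mulE p h = p * h := rfl

theorem dE_apply {n : ℕ} (j : Fin n) (h : MvPolynomial (Fin n) ℂ) : dE j h = pderiv j h := rfl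

/-- The Weyl algebra as an algebra of endomorphisms. -/
noncomputable def WA (n : ℕ) : Subalgebra ℂ (Module.End ℂ (MvPolynomial (Fin n) ℂ)) :=
  Algebra.adjoin ℂ ({Φ | ∃ j, Φ = mulE (X j)} ∪ {Φ | ∃ j, Φ = dE j})

/-- `Σ_j y_j f_j`. -/
noncomputable def gY {N r : ℕ} (f : Fin r → MvPolynomial (Fin N) ℂ) :
    MvPolynomial (Fin (N + r)) ℂ := ∑ j, X (Fin.natAdd N j) * xin r (f j)

end Pool.Agent.H56.ID
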