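import Pool.Agent.H56.ID.Defs

/-!
# GYP: the powers of `Σ y_j f_j` and its monomials

Proof.  `gY_pow`: `Finset.sum_pow_eq_sum_piAntidiag`, `mul_pow`, `prod_mul_distrib`, `map_prod`, `map_pow`.  `gY_gens`: `xin` of a monomial is
`monomial (Finsupp.mapDomain (castAdd r) (e i)) κ`, times `X (natAdd N (q i)) = monomial (single _ 1) 1` is `monomial (yexp e q i) κ` (compare exponents at `castAdd r l` and `natAdd N l`, `Fin.addCases`;
`Fin.append_left`, `Fin.append_right`; `Finsupp.mapDomain_apply`, `Finsupp.mapDomain_notin_range`); the double sum over `j` and `i` with `q i = j` is the sum over `i`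
(`Finset.sum_fiberwise`).
-/

set_option autoImplicit false

namespace Pool.Agent.H56.ID

open Finset MvPolynomial
open Pool.Agent.H22

/-- The multinomial theorem. -/
theorem gY_pow {N r : ℕ} (f : Fin r → MvPolynomial (Fin N) ℂ) (m : ℕ) :
    gY f ^ m = ∑ k ∈ (univ : Finset (Fin r)).piAntidiag m, (Nat.multinomial univ k : ℂ) •
      (ypow N k * xin r (∏ i, f i ^ k i)) := by
  classical
  unfold gY
  rw [Finset.sum_pow_eq_sum_piAntidiag]
  refine Finset.sum_congr rfl fun k _ => ?_
  have h1 : ∏ i, (X (Fin.natAdd N i) * xin r (f i)) ^ k i = ypow N k * xin r (∏ i, f i ^ k i) := by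
    unfold ypow
    rw [map_prod, ← Finset.prod_mul_distrib]
    refine Finset.prod_congr rfl fun i _ => ?_
    rw [mul_pow, map_pow]
  rw [h1, MvPolynomial.smul_eq_C_mul, map_natCast]

theorem GYP_left {N r R : ℕ} (e : Fin R → (Fin N →₀ ℕ)) (q : Fin R → Fin r) (i : Fin R)
    (l : Fin N) : yexp e q i (Fin.castAdd r l) = e i l := by
  change Fin.append (e i) (Pi.single (q i) 1) (Fin.castAdd r l) = e i l
  rw [Fin.append_left]

theorem GYP_right {N r R : ℕ} (e : Fin R → (Fin N →₀ ℕ)) (q : Fin R → Fin r) (i : Fin R)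
    (l : Fin r) : yexp e q i (Fin.natAdd N l) = (Pi.single (q i) 1 : Fin r → ℕ) l := by
  change Fin.append (e i) (Pi.single (q i) 1) (Fin.natAdd N l) = _
  rw [Fin.append_right]

theorem GYP_exp {N r R : ℕ} (e : Fin R → (Fin N →₀ ℕ)) (q : Fin R → Fin r) (i : Fin R) :
    Finsupp.single (Fin.natAdd N (q i)) 1 + Finsupp.mapDomain (Fin.castAdd r) (e i) =
      yexp e q i := by
  ext l
  rw [Finsupp.add_apply]
  refine Fin.addCases (fun l' => ?_) (fun l' => ?_) l
  · rw [GYP_left, Finsupp.mapDomain_apply (Fin.castAdd_injective N r), Finsupp.single_eq_of_ne,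
      zero_add]
    intro h
    have h1 := congrArg Fin.val h
    rw [Fin.val_castAdd, Fin.val_natAdd] at h1
    have h2 := l'.2
    omega
  · rw [GYP_right, Finsupp.mapDomain_notin_range, add_zero]
    · by_cases h : l' = q i
      · rw [h, Finsupp.single_eq_same, Pi.single_eq_same]
      · rw [Pi.single_eq_of_ne h, Finsupp.single_eq_of_ne]
        intro h1
        exact h (Fin.natAdd_injective r N h1)
    · rintro ⟨a, ha⟩
      have h1 := congrArg Fin.val ha
      rw [Fin.val_castAdd, Fin.val_natAdd] at h1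
      have h2 := a.2
      omega

/-- The monomials of `Σ y_j f_j`. -/
theorem gY_gens {N r R : ℕ} (e : Fin R → (Fin N →₀ ℕ)) (q : Fin R → Fin r) (κ : Fin R → ℂ) :
    gY (gens e q κ) = ∑ i, monomial (yexp e q i) (κ i) := by
  classical
  unfold gY gens
  rw [← Finset.sum_fiberwise Finset.univ q (fun i => monomial (yexp e q i) (κ i))]
  refine Finset.sum_congr rfl fun j _ => ?_
  rw [map_sum, Finset.mul_sum]
  refine Finset.sum_congr rfl fun i hi => ?_
  have hq : q i = j := (Finset.mem_filter.1 hi).2
  unfold xin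
  rw [MvPolynomial.rename_monomial, ← hq]
  change monomial (Finsupp.single (Fin.natAdd N (q i)) 1) 1 * _ = _
  rw [MvPolynomial.monomial_mul, one_mul, GYP_exp]

/-- The exponents are different. -/
theorem yexp_inj {N r R : ℕ} (e : Fin R → (Fin N →₀ ℕ)) (q : Fin R → Fin r)
    (h : Function.Injective fun i => (e i, q i)) : Function.Injective (yexp e q) := by
  classical
  intro i i' hii
  apply h
  refine Prod.ext ?_ ?_
  · change e i = e i'
    ext l
    rw [← GYP_left e q i l, ← GYP_left e q i' l, hii]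
  · change q i = q i'
    have h1 : (Pi.single (q i) 1 : Fin r → ℕ) (q i) = (Pi.single (q i') 1 : Fin r → ℕ) (q i) := by
      rw [← GYP_right e q i (q i), ← GYP_right e q i' (q i), hii]
    rw [Pi.single_eq_same] at h1
    by_contra hne
    rw [Pi.single_eq_of_ne hne] at h1
    exact one_ne_zero h1

end Pool.Agent.H56.ID
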