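import Pool.Agent.H56.ID.Defs

/-!
# MCO: the operator `∏_{c_i<0} y_i^{-c_i}/(-c_i)! ∏_{c_i>0} ∂_{y_i}^{c_i}`

Proof.  `dE (natAdd N j) (ypow N k * xin r h) = C (k j) * (ypow N (Function.update k j (k j - 1)) * xin r h)` (`Derivation.leibniz`; `pderiv` of `xin r h` in a `y`-direction is `0`), so for `m : ℕ`
`(dE (natAdd N j))^m (ypow k * xin h) = C (descFactorial (k j) m) * (ypow (update k j (k j - m)) * xin h)` (`Nat.descFactorial_succ`).  Multiplication:
`mulE (X (natAdd N j) ^ m) (ypow k * xin h) = ypow (update k j (k j + m)) * xin h`.  By induction on a finset (or list) `s` of indices there is `Φ_s ∈ WA` which does this for all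
`j ∈ s`: `Φ_s (ypow k * xin h) = C (∏_{j ∈ s} u_j(k_j)) * (ypow k_s * xin h)` where `k_s j = (k j - c j).toNat` for `j ∈ s`, `k_s j = k j` otherwise and
`u_j(m) = 1/(-c_j)!` if `c_j < 0`, `descFactorial m c_j` otherwise (`= 1` for `c_j = 0`); take `s = univ`.
-/

set_option autoImplicit false

namespace Pool.Agent.H56.ID

open Finset MvPolynomial
open Pool.Agent.H22

private theorem MCO_der1 {n : ℕ} (a : Fin n) (m : ℕ) (G : MvPolynomial (Fin n) ℂ)
    (hG : pderiv a G = 0) :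
    pderiv a (X a ^ m * G) = C (m : ℂ) * (X a ^ (m - 1) * G) := by
  rw [Derivation.leibniz, hG, smul_zero, zero_add, Derivation.leibniz_pow, pderiv_X_self]
  simp only [smul_eq_mul, nsmul_eq_mul, mul_one]
  rw [map_natCast]
  ring

private theorem MCO_der {n : ℕ} (a : Fin n) (m l : ℕ) (G : MvPolynomial (Fin n) ℂ)
    (hG : pderiv a G = 0) :
    (dE a ^ l) (X a ^ m * G) = C ((m.descFactorial l : ℕ) : ℂ) * (X a ^ (m - l) * G) := by
  induction l with
  | zero => simp
  | succ l ih =>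
    rw [pow_succ', Module.End.mul_apply, ih, ← smul_eq_C_mul, map_smul, dE_apply,
      MCO_der1 a (m - l) G hG, smul_eq_C_mul, ← mul_assoc, ← C_mul, Nat.descFactorial_succ,
      Nat.sub_sub]
    push_cast
    rw [mul_comm ((m.descFactorial l : ℕ) : ℂ)]

private theorem MCO_mul {n : ℕ} (a : Fin n) (l : ℕ) (p : MvPolynomial (Fin n) ℂ) :
    (mulE (X a) ^ l) p = X a ^ l * p := by
  unfold mulE
  rw [LinearMap.pow_mulLeft]
  rfl

private theorem MCO_xin {N r : ℕ} (a : Fin r) (h : MvPolynomial (Fin N) ℂ) :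
    pderiv (Fin.natAdd N a) (xin r h) = 0 := by
  refine pderiv_eq_zero_of_notMem_vars ?_
  intro hmem
  have h1 := vars_rename (Fin.castAdd r) h hmem
  rw [Finset.mem_image] at h1
  obtain ⟨j, -, hj⟩ := h1
  have h2 := congrArg Fin.val hj
  have h3 := j.2
  simp only [Fin.val_castAdd, Fin.val_natAdd] at h2
  omega

private theorem MCO_prod {N r : ℕ} (a : Fin r) (k : Fin r → ℕ) :
    pderiv (Fin.natAdd N a)
      (∏ j ∈ univ.erase a, (X (Fin.natAdd N j) : MvPolynomial (Fin (N + r)) ℂ) ^ k j) = 0 := by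
  refine Finset.prod_induction _
    (fun q : MvPolynomial (Fin (N + r)) ℂ => pderiv (Fin.natAdd N a) q = 0) ?_ ?_ ?_
  · intro x y hx hy
    rw [Derivation.leibniz, hx, hy, smul_zero, smul_zero, zero_add]
  · exact Derivation.map_one_eq_zero _
  · intro j hj
    have hne : Fin.natAdd N j ≠ Fin.natAdd N a := by
      intro h
      have h2 := congrArg Fin.val h
      simp only [Fin.val_natAdd] at h2
      exact (Finset.ne_of_mem_erase hj) (Fin.ext (by omega))
    rw [Derivation.leibniz_pow, pderiv_X_of_ne hne, smul_zero, smul_zero]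

private theorem MCO_upd {N r : ℕ} (a : Fin r) (k : Fin r → ℕ) (m : ℕ) :
    ypow N (Function.update k a m) = (X (Fin.natAdd N a) : MvPolynomial (Fin (N + r)) ℂ) ^ m *
      ∏ j ∈ univ.erase a, X (Fin.natAdd N j) ^ k j := by
  unfold ypow
  rw [← Finset.mul_prod_erase univ _ (Finset.mem_univ a), Function.update_self]
  congr 1
  refine Finset.prod_congr rfl fun j hj => ?_
  rw [Function.update_of_ne (Finset.ne_of_mem_erase hj)]

private theorem MCO_mX {n : ℕ} (j : Fin n) (l : ℕ) : mulE (X j) ^ l ∈ WA n := by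
  have h : mulE (X j) ∈ WA n := Algebra.subset_adjoin (Or.inl ⟨j, rfl⟩)
  exact Subalgebra.pow_mem _ h l

private theorem MCO_dX {n : ℕ} (j : Fin n) (l : ℕ) : dE j ^ l ∈ WA n := by
  have h : dE j ∈ WA n := Algebra.subset_adjoin (Or.inr ⟨j, rfl⟩)
  exact Subalgebra.pow_mem _ h l

private theorem MCO_one {r : ℕ} (N : ℕ) (c : Fin r → ℤ) (a : Fin r) :
    ∃ Φ ∈ WA (N + r), ∀ (k : Fin r → ℕ) (h : MvPolynomial (Fin N) ℂ), Φ (ypow N k * xin r h) =
      C (if c a < 0 then (((c a).natAbs.factorial : ℂ))⁻¹ else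
        (((k a).descFactorial (c a).natAbs : ℕ) : ℂ)) *
        (ypow N (Function.update k a ((k a : ℤ) - c a).toNat) * xin r h) := by
  have hk : ∀ (k : Fin r → ℕ) (h : MvPolynomial (Fin N) ℂ), ypow N k * xin r h =
      X (Fin.natAdd N a) ^ k a *
        ((∏ j ∈ univ.erase a, X (Fin.natAdd N j) ^ k j) * xin r h) := by
    intro k h
    rw [← mul_assoc, ← MCO_upd, Function.update_eq_self]
  have hk2 : ∀ (k : Fin r → ℕ) (h : MvPolynomial (Fin N) ℂ) (m : ℕ),
      ypow N (Function.update k a m) * xin r h =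
      X (Fin.natAdd N a) ^ m *
        ((∏ j ∈ univ.erase a, X (Fin.natAdd N j) ^ k j) * xin r h) := by
    intro k h m
    rw [← mul_assoc, ← MCO_upd]
  by_cases hc : c a < 0
  · refine ⟨(((c a).natAbs.factorial : ℂ))⁻¹ • mulE (X (Fin.natAdd N a)) ^ (c a).natAbs,
      Subalgebra.smul_mem _ (MCO_mX _ _) _, fun k h => ?_⟩
    rw [if_pos hc, LinearMap.smul_apply, MCO_mul, hk2, hk, smul_eq_C_mul, ← mul_assoc (X _ ^ _),
      ← pow_add]
    have h1 : ((k a : ℤ) - c a).toNat = (c a).natAbs + k a := by omega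
    rw [h1]
  · refine ⟨dE (Fin.natAdd N a) ^ (c a).natAbs, MCO_dX _ _, fun k h => ?_⟩
    have h1 : ((k a : ℤ) - c a).toNat = k a - (c a).natAbs := by omega
    have hG : pderiv (Fin.natAdd N a)
        ((∏ j ∈ univ.erase a, (X (Fin.natAdd N j) : MvPolynomial (Fin (N + r)) ℂ) ^ k j) *
          xin r h) = 0 := by
      rw [Derivation.leibniz, MCO_prod, MCO_xin, smul_zero, smul_zero, zero_add]
    rw [if_neg hc, hk2, hk, h1, MCO_der _ _ _ _ hG]

private theorem MCO_set {r : ℕ} (N : ℕ) (c : Fin r → ℤ) (s : Finset (Fin r)) :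
    ∃ Φ ∈ WA (N + r), ∀ (k : Fin r → ℕ) (h : MvPolynomial (Fin N) ℂ), Φ (ypow N k * xin r h) =
      C (∏ j ∈ s, (if c j < 0 then (((c j).natAbs.factorial : ℂ))⁻¹ else
        (((k j).descFactorial (c j).natAbs : ℕ) : ℂ))) *
        (ypow N (fun j => if j ∈ s then ((k j : ℤ) - c j).toNat else k j) * xin r h) := by
  induction s using Finset.induction_on with
  | empty =>
    refine ⟨1, Subalgebra.one_mem _, fun k h => ?_⟩
    simp
  | insert a s ha ih =>
    obtain ⟨Φ, hΦ, hΦ'⟩ := ih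
    obtain ⟨Ψ, hΨ, hΨ'⟩ := MCO_one N c a
    refine ⟨Ψ * Φ, Subalgebra.mul_mem _ hΨ hΦ, fun k h => ?_⟩
    rw [Module.End.mul_apply, hΦ', ← smul_eq_C_mul, map_smul, hΨ', smul_eq_C_mul,
      Finset.prod_insert ha, if_neg ha, ← mul_assoc (C _) (C _), ← C_mul,
      mul_comm (∏ j ∈ s, _)]
    congr 3
    funext j
    by_cases hj : j = a
    · subst hj
      rw [Function.update_self, if_pos (Finset.mem_insert_self _ _)]
    · rw [Function.update_of_ne hj]
      by_cases hjs : j ∈ s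
      · rw [if_pos hjs, if_pos (Finset.mem_insert_of_mem hjs)]
      · rw [if_neg hjs, if_neg]
        intro h3
        rcases Finset.mem_insert.1 h3 with h4 | h4
        · exact hj h4
        · exact hjs h4

/-- The operator `M_c`. -/
theorem exists_mc {r : ℕ} (N : ℕ) (c : Fin r → ℤ) : ∃ Φ ∈ WA (N + r), ∀ (k : Fin r → ℕ)
    (h : MvPolynomial (Fin N) ℂ), Φ (ypow N k * xin r h) =
      C (∏ j, (if c j < 0 then (((c j).natAbs.factorial : ℂ))⁻¹ else
        (((k j).descFactorial (c j).natAbs : ℕ) : ℂ))) *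
        (ypow N (fun j => ((k j : ℤ) - c j).toNat) * xin r h) := by
  obtain ⟨Φ, hΦ, hΦ'⟩ := MCO_set N c univ
  refine ⟨Φ, hΦ, fun k h => ?_⟩
  rw [hΦ']
  simp only [Finset.mem_univ, if_true]

end Pool.Agent.H56.ID
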