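import Pool.Agent.H56.ID.Defs

/-!
# REI: reindexing of the multinomial sum

Write `F k = ypow N k * xin r (Ψ k)` for arbitrary `Ψ`.  Proof.  Both sides are `(m+1)!` times a sum with coefficients `1/k'!` (`Nat.multinomial`: `k'! · multinomial = (Σ k')!`, `Nat.multinomial_spec`).
Left: the term of `k'` vanishes if `k'_j < c_j` for some `j` (`Nat.descFactorial_eq_zero_iff_lt`).  Right: the term of `k` vanishes if `c_j < 0` and `k_j < -c_j` for some `j`
(`Nat.choose_eq_zero_of_lt`).  `k' ↦ k = k' - c` is a bijection between the remaining index sets (`Finset.sum_bij_ne_zero`, or restrict to filters and `Finset.sum_nbij'`; inverse `k ↦ k + c`,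
`Σ k' = m + 1` iff `Σ k = m`), and the coefficients agree factor by factor: for `c_j < 0`, `k'_j = k_j + c_j`: `1/(k'_j! (-c_j)!) = binom(k_j,-c_j)/k_j!` (`Nat.choose_mul_factorial_mul_factorial`); for
`c_j ≥ 0`, `k_j = k'_j - c_j`: `descFactorial(k'_j, c_j)/k'_j! = 1/k_j!` (`Nat.factorial_mul_descFactorial`).
-/

set_option autoImplicit false

namespace Pool.Agent.H56.ID

open Finset MvPolynomial
open Pool.Agent.H22

theorem REI_factor (c : ℤ) (k k' : ℕ) (h : (k : ℤ) = k' - c) :
    ((k'.factorial : ℂ))⁻¹ * (if c < 0 then (((c).natAbs.factorial : ℂ))⁻¹ else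
        (((k').descFactorial (c).natAbs : ℕ) : ℂ)) =
    ((k.factorial : ℂ))⁻¹ * (if c < 0 then ((k).choose (c).natAbs : ℂ) else 1) := by
  have hk : (k.factorial : ℂ) ≠ 0 := by exact_mod_cast k.factorial_ne_zero
  have hk' : (k'.factorial : ℂ) ≠ 0 := by exact_mod_cast k'.factorial_ne_zero
  have ha : ((c.natAbs).factorial : ℂ) ≠ 0 := by exact_mod_cast (c.natAbs).factorial_ne_zero
  split_ifs with hc
  · have h1 : k = k' + c.natAbs := by omega
    have h2 := Nat.choose_mul_factorial_mul_factorial (n := k) (k := c.natAbs) (by omega)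
    have h3 : k - c.natAbs = k' := by omega
    rw [h3] at h2
    have h4 : ((k.choose c.natAbs : ℕ) : ℂ) * (c.natAbs.factorial : ℂ) * (k'.factorial : ℂ)
        = (k.factorial : ℂ) := by exact_mod_cast h2
    field_simp
    rw [← h4]
    ring
  · have h1 : k' = k + c.natAbs := by omega
    have h2 := Nat.factorial_mul_descFactorial (n := k') (k := c.natAbs) (by omega)
    have h3 : k' - c.natAbs = k := by omega
    rw [h3] at h2
    have h4 : (k.factorial : ℂ) * ((k'.descFactorial c.natAbs : ℕ) : ℂ) = (k'.factorial : ℂ) := by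
      exact_mod_cast h2
    rw [mul_one]
    field_simp
    rw [← h4]
    ring

theorem REI_multinomial {r : ℕ} (n : ℕ) (k : Fin r → ℕ) (h : ∑ j, k j = n) :
    (Nat.multinomial univ k : ℂ) = (n.factorial : ℂ) * ∏ j, (((k j).factorial : ℂ))⁻¹ := by
  have h1 := Nat.multinomial_spec univ k
  rw [h] at h1
  have h2 : (∏ j, ((k j).factorial : ℂ)) * (Nat.multinomial univ k : ℂ) = (n.factorial : ℂ) := by
    exact_mod_cast h1
  rw [Finset.prod_inv_distrib, ← h2]
  have h3 : (∏ j, ((k j).factorial : ℂ)) ≠ 0 :=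
    Finset.prod_ne_zero_iff.2 fun j _ => by exact_mod_cast (k j).factorial_ne_zero
  field_simp

theorem REI_coef {r : ℕ} (c : Fin r → ℤ) (m : ℕ) (k k' : Fin r → ℕ) (hs : ∑ j, k j = m)
    (hs' : ∑ j, k' j = m + 1) (h : ∀ j, (k j : ℤ) = k' j - c j) :
    ((Nat.multinomial univ k' : ℂ) *
      ∏ j, (if c j < 0 then (((c j).natAbs.factorial : ℂ))⁻¹ else
        (((k' j).descFactorial (c j).natAbs : ℕ) : ℂ))) =
    (((m : ℂ) + 1) * (Nat.multinomial univ k : ℂ) *
      ∏ j with c j < 0, ((k j).choose (c j).natAbs : ℂ)) := by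
  rw [REI_multinomial _ k' hs', REI_multinomial _ k hs, Finset.prod_filter, mul_assoc,
    ← Finset.prod_mul_distrib, Finset.prod_congr rfl fun j _ => REI_factor (c j) (k j) (k' j) (h j),
    Finset.prod_mul_distrib, Nat.factorial_succ]
  push_cast
  ring

theorem REI_valid {r : ℕ} (c : Fin r → ℤ) (k' : Fin r → ℕ)
    (h : ((Nat.multinomial univ k' : ℂ) *
      ∏ j, (if c j < 0 then (((c j).natAbs.factorial : ℂ))⁻¹ else
        (((k' j).descFactorial (c j).natAbs : ℕ) : ℂ))) ≠ 0) (j : Fin r) :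
    ((((k' j : ℤ) - c j).toNat : ℕ) : ℤ) = k' j - c j := by
  by_cases hj : c j < 0
  · omega
  · have h1 := right_ne_zero_of_mul h
    have h2 := Finset.prod_ne_zero_iff.1 h1 j (Finset.mem_univ _)
    rw [if_neg hj] at h2
    have h3 : (k' j).descFactorial (c j).natAbs ≠ 0 := by exact_mod_cast h2
    have h4 : (c j).natAbs ≤ k' j := by
      by_contra hlt
      exact h3 (Nat.descFactorial_eq_zero_iff_lt.2 (not_le.1 hlt))
    omega

theorem REI_sum {r : ℕ} (c : Fin r → ℤ) (hc : ∑ i, c i = 1) (m : ℕ) (k k' : Fin r → ℕ)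
    (hv : ∀ j, (k j : ℤ) = k' j - c j) (hs' : ∑ j, k' j = m + 1) : ∑ j, k j = m := by
  have h5 : ((∑ j, k j : ℕ) : ℤ) = (m : ℤ) := by
    push_cast
    rw [Finset.sum_congr rfl fun j _ => hv j, Finset.sum_sub_distrib, hc]
    have : (∑ j, (k' j : ℤ)) = m + 1 := by exact_mod_cast hs'
    rw [this]
    ring
  exact_mod_cast h5

/-- Reindexing. -/
theorem reindex {V : Type} [AddCommGroup V] [Module ℂ V] {r : ℕ} (c : Fin r → ℤ)
    (hc : ∑ i, c i = 1) (m : ℕ) (F : (Fin r → ℕ) → V) :
    ∑ k' ∈ (univ : Finset (Fin r)).piAntidiag (m + 1), ((Nat.multinomial univ k' : ℂ) *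
      ∏ j, (if c j < 0 then (((c j).natAbs.factorial : ℂ))⁻¹ else
        (((k' j).descFactorial (c j).natAbs : ℕ) : ℂ))) • F (fun j => ((k' j : ℤ) - c j).toNat) =
    ∑ k ∈ (univ : Finset (Fin r)).piAntidiag m, (((m : ℂ) + 1) * (Nat.multinomial univ k : ℂ) *
      ∏ j with c j < 0, ((k j).choose (c j).natAbs : ℂ)) • F k := by
  classical
  refine Finset.sum_bij_ne_zero (fun k' _ _ => fun j => ((k' j : ℤ) - c j).toNat) ?_ ?_ ?_ ?_
  · intro k' h1 h2
    have hv := REI_valid c k' (left_ne_zero_of_smul h2)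
    rw [Finset.mem_piAntidiag] at h1 ⊢
    exact ⟨REI_sum c hc m _ k' hv h1.1, fun _ _ => Finset.mem_univ _⟩
  · intro k1 _ h1 k2 _ h2 h
    have hv1 := REI_valid c k1 (left_ne_zero_of_smul h1)
    have hv2 := REI_valid c k2 (left_ne_zero_of_smul h2)
    funext j
    have h4 := hv1 j
    have h5 := hv2 j
    have h3 : (((k1 j : ℤ) - c j).toNat) = (((k2 j : ℤ) - c j).toNat) := congrFun h j
    rw [h3] at h4
    omega
  · intro k hk h
    have h0 := left_ne_zero_of_smul h
    have hv : ∀ j, (k j : ℤ) = (((k j : ℤ) + c j).toNat : ℤ) - c j := by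
      intro j
      by_cases hj : c j < 0
      · have h1 := right_ne_zero_of_mul h0
        have h2 := Finset.prod_ne_zero_iff.1 h1 j (by simp [hj])
        have h3 : (k j).choose (c j).natAbs ≠ 0 := by exact_mod_cast h2
        have h4 : (c j).natAbs ≤ k j := by
          by_contra hlt
          exact h3 (Nat.choose_eq_zero_of_lt (not_le.1 hlt))
        omega
      · omega
    have hmk := (Finset.mem_piAntidiag.1 hk).1
    have hs' : ∑ j, ((k j : ℤ) + c j).toNat = m + 1 := by
      have h5 : ((∑ j, ((k j : ℤ) + c j).toNat : ℕ) : ℤ) = ((m + 1 : ℕ) : ℤ) := by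
        push_cast
        rw [Finset.sum_congr rfl fun j _ => show (((k j : ℤ) + c j).toNat : ℤ) = k j + c j by
          have := hv j; omega]
        rw [Finset.sum_add_distrib, hc]
        congr 1
        exact_mod_cast hmk
      exact_mod_cast h5
    have hfun : (fun j => (((((k j : ℤ) + c j).toNat : ℕ) : ℤ) - c j).toNat) = k := by
      funext j
      have := hv j
      omega
    refine ⟨fun j => ((k j : ℤ) + c j).toNat, ?_, ?_, hfun⟩
    · rw [Finset.mem_piAntidiag]
      exact ⟨hs', fun _ _ => Finset.mem_univ _⟩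
    · simp only
      rw [hfun, REI_coef c m k _ hmk hs' hv]
      exact h
  · intro k' h1 h2
    have hv := REI_valid c k' (left_ne_zero_of_smul h2)
    have hs' := (Finset.mem_piAntidiag.1 h1).1
    have hs := REI_sum c hc m _ k' hv hs'
    simp only
    rw [REI_coef c m _ k' hs hs' hv]

end Pool.Agent.H56.ID
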