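import Pool.Agent.H56.ID.Defs

/-!
# THE: the operator `P(y_1 ∂_{y_1}, …, y_r ∂_{y_r})`

Proof.  (1) `mulE p ∈ WA` for all `p` (induction on `p`; `mulE (C c)` is a scalar).  (2) For `k`, `h`: `dE (natAdd N j) (ypow N k * xin r h) = k_j y^{k - e_j} xin h`, so
`(mulE (X (natAdd N j)) * dE (natAdd N j)) (ypow N k * xin r h) = k_j • (ypow N k * xin r h)` (`pderiv` of `xin r h` in a `y`-direction is `0`, of a product of powers of the `y`;
use `Derivation.leibniz`, `pderiv_X_of_ne`, `MvPolynomial.pderiv_rename`-like lemmas or induction on `h`), and `dE (castAdd r i) (ypow N k * xin r h) = ypow N k * xin r (pderiv i h)`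
(`pderiv` of `ypow` in an `x`-direction is `0`; `pderiv (castAdd r i) (rename (castAdd r) h) = rename (castAdd r) (pderiv i h)` is `pderiv_rename` for injective maps).
(3) For every `β` there is `Φ ∈ WA` with `Φ (ypow N k * xin r h) = ypow N k * xin r (diffPow β h)` for all `k`, `h`: the product over the list of the powers of `dE (castAdd r i)`.
(4) For every `a : MvPolynomial (Fin r) ℂ` and `Φ ∈ WA` there is `Ψ ∈ WA` with: whenever `Φ (ypow k * xin h) = ypow k * xin h'` then
`Ψ (ypow k * xin h) = ypow k * xin (C (eval k a) * h')`: induction on `a` (`MvPolynomial.induction_on`: constants, sums, multiplication by `X j` with (2)).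
(5) By induction on `p` (`MvPolynomial.induction_on`) for every `β` there is `Φ ∈ WA` with `Φ (ypow k * xin h) = ypow k * xin (map (eval k) p * diffPow β h)`; then the sum over `P`
(`Finsupp.sum` is a finite sum: choose `Φ_β` and sum).
-/

set_option autoImplicit false

namespace Pool.Agent.H56.ID

open Finset MvPolynomial
open Pool.Agent.H22

variable {N r : ℕ}

/-- `F` is realised by an element of the Weyl algebra. -/
def THE_Good (F : (Fin r → ℕ) → MvPolynomial (Fin N) ℂ → MvPolynomial (Fin N) ℂ) : Prop :=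
  ∃ Φ ∈ WA (N + r), ∀ (k : Fin r → ℕ) (h : MvPolynomial (Fin N) ℂ),
    Φ (ypow N k * xin r h) = ypow N k * xin r (F k h)

theorem THE_add {F G : (Fin r → ℕ) → MvPolynomial (Fin N) ℂ → MvPolynomial (Fin N) ℂ}
    (hF : THE_Good F) (hG : THE_Good G) : THE_Good (fun k h => F k h + G k h) := by
  obtain ⟨Φ, hΦ, h1⟩ := hF
  obtain ⟨Ψ, hΨ, h2⟩ := hG
  refine ⟨Φ + Ψ, add_mem hΦ hΨ, fun k h => ?_⟩
  rw [LinearMap.add_apply, h1, h2, map_add, mul_add]

theorem THE_comp {F G : (Fin r → ℕ) → MvPolynomial (Fin N) ℂ → MvPolynomial (Fin N) ℂ}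
    (hF : THE_Good F) (hG : THE_Good G) : THE_Good (fun k h => F k (G k h)) := by
  obtain ⟨Φ, hΦ, h1⟩ := hF
  obtain ⟨Ψ, hΨ, h2⟩ := hG
  refine ⟨Φ * Ψ, mul_mem hΦ hΨ, fun k h => ?_⟩
  rw [Module.End.mul_apply, h2, h1]

theorem THE_const (c : ℂ) : THE_Good (N := N) (r := r) (fun _ h => C c * h) := by
  refine ⟨algebraMap ℂ _ c, Subalgebra.algebraMap_mem _ c, fun k h => ?_⟩
  rw [Module.algebraMap_end_apply, map_mul]
  have h1 : xin r (C c : MvPolynomial (Fin N) ℂ) = C c := by
    unfold xin
    rw [rename_C]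
  rw [h1, MvPolynomial.smul_eq_C_mul]
  ring

theorem THE_id : THE_Good (N := N) (r := r) (fun _ h => h) :=
  ⟨1, one_mem _, fun _ _ => rfl⟩

theorem THE_zero : THE_Good (N := N) (r := r) (fun _ _ => 0) :=
  ⟨0, zero_mem _, fun k h => by rw [LinearMap.zero_apply, map_zero, mul_zero]⟩

theorem THE_sum {ι : Type*} (s : Finset ι)
    (F : ι → (Fin r → ℕ) → MvPolynomial (Fin N) ℂ → MvPolynomial (Fin N) ℂ)
    (hF : ∀ i ∈ s, THE_Good (F i)) : THE_Good (fun k h => ∑ i ∈ s, F i k h) := by
  classical
  induction s using Finset.induction_on with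
  | empty => simpa using THE_zero
  | insert a s ha ih =>
    have h1 := THE_add (hF a (Finset.mem_insert_self a s))
      (ih fun i hi => hF i (Finset.mem_insert_of_mem hi))
    have h2 : (fun (k : Fin r → ℕ) (h : MvPolynomial (Fin N) ℂ) => ∑ i ∈ insert a s, F i k h) =
        fun k h => F a k h + ∑ i ∈ s, F i k h := by
      funext k h
      rw [Finset.sum_insert ha]
    rw [h2]
    exact h1

theorem THE_xin_X (i : Fin N) : xin r (X i : MvPolynomial (Fin N) ℂ) = X (Fin.castAdd r i) := by
  unfold xin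
  rw [rename_X]

theorem THE_X (i : Fin N) : THE_Good (N := N) (r := r) (fun _ h => X i * h) := by
  refine ⟨mulE (X (Fin.castAdd r i)), Algebra.subset_adjoin (Or.inl ⟨_, rfl⟩), fun k h => ?_⟩
  rw [mulE_apply, map_mul, THE_xin_X]
  ring

theorem THE_castAdd_ne (i : Fin N) (j : Fin r) : Fin.castAdd r i ≠ Fin.natAdd N j := by
  intro h
  have h1 := congrArg Fin.val h
  rw [Fin.val_castAdd, Fin.val_natAdd] at h1
  have h2 := i.2
  omega

theorem THE_D_ypow (i : Fin N) (k : Fin r → ℕ) :
    pderiv (Fin.castAdd r i) (ypow N k : MvPolynomial (Fin (N + r)) ℂ) = 0 := by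
  unfold ypow
  refine Finset.prod_induction _ (fun p => pderiv (Fin.castAdd r i) p = 0) ?_ ?_ ?_
  · intro a b ha hb
    rw [pderiv_mul, ha, hb, zero_mul, mul_zero, add_zero]
  · exact pderiv_one
  · intro j _
    induction k j with
    | zero => rw [pow_zero]; exact pderiv_one
    | succ n ih =>
      rw [pow_succ, pderiv_mul, ih, pderiv_X_of_ne (THE_castAdd_ne i j).symm, zero_mul, mul_zero,
        add_zero]

theorem THE_D (i : Fin N) : THE_Good (N := N) (r := r) (fun _ h => pderiv i h) := by
  refine ⟨dE (Fin.castAdd r i), Algebra.subset_adjoin (Or.inr ⟨_, rfl⟩), fun k h => ?_⟩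
  rw [dE_apply, pderiv_mul, THE_D_ypow, zero_mul, zero_add]
  unfold xin
  rw [pderiv_rename (Fin.castAdd_injective N r)]

theorem THE_D_xin (j : Fin r) (h : MvPolynomial (Fin N) ℂ) :
    pderiv (Fin.natAdd N j) (xin r h) = 0 := by
  induction h using MvPolynomial.induction_on with
  | C a =>
    unfold xin
    rw [rename_C, pderiv_C]
  | add p q hp hq => rw [map_add, map_add, hp, hq, add_zero]
  | mul_X p i hp =>
    rw [map_mul, THE_xin_X, pderiv_mul, hp, pderiv_X_of_ne (THE_castAdd_ne i j), zero_mul,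
      mul_zero, add_zero]

theorem THE_euler_pow {n : ℕ} (j : Fin n) (m : ℕ) :
    X j * pderiv j (X j ^ m : MvPolynomial (Fin n) ℂ) = C (m : ℂ) * X j ^ m := by
  induction m with
  | zero => simp
  | succ m ih =>
    rw [pow_succ, pderiv_mul, pderiv_X_self, mul_add]
    have h1 : X j * (pderiv j (X j ^ m : MvPolynomial (Fin n) ℂ) * X j) =
        (X j * pderiv j (X j ^ m)) * X j := by ring
    rw [h1, ih]
    push_cast
    rw [C_add, C_1]
    ring

theorem THE_euler_ypow (j : Fin r) (k : Fin r → ℕ) :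
    X (Fin.natAdd N j) * pderiv (Fin.natAdd N j) (ypow N k : MvPolynomial (Fin (N + r)) ℂ) =
      C (k j : ℂ) * ypow N k := by
  have h1 : (ypow N k : MvPolynomial (Fin (N + r)) ℂ) =
      X (Fin.natAdd N j) ^ k j * ∏ i ∈ Finset.univ.erase j, X (Fin.natAdd N i) ^ k i :=
    (Finset.mul_prod_erase Finset.univ (fun i => (X (Fin.natAdd N i) ^ k i :
      MvPolynomial (Fin (N + r)) ℂ)) (Finset.mem_univ j)).symm
  have h2 : pderiv (Fin.natAdd N j) (∏ i ∈ Finset.univ.erase j, X (Fin.natAdd N i) ^ k i :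
      MvPolynomial (Fin (N + r)) ℂ) = 0 := by
    refine Finset.prod_induction _ (fun p => pderiv (Fin.natAdd N j) p = 0) ?_ ?_ ?_
    · intro a b ha hb
      rw [pderiv_mul, ha, hb, zero_mul, mul_zero, add_zero]
    · exact pderiv_one
    · intro i hi
      have hij : Fin.natAdd N i ≠ Fin.natAdd N j := by
        intro h
        exact (Finset.ne_of_mem_erase hi) (Fin.natAdd_injective r N h)
      induction k i with
      | zero => rw [pow_zero]; exact pderiv_one
      | succ n ih =>
        rw [pow_succ, pderiv_mul, ih, pderiv_X_of_ne hij, zero_mul, mul_zero, add_zero]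
  rw [h1, pderiv_mul, h2, mul_zero, add_zero, ← mul_assoc, THE_euler_pow, mul_assoc]

theorem THE_k (j : Fin r) : THE_Good (N := N) (r := r) (fun k h => C (k j : ℂ) * h) := by
  refine ⟨mulE (X (Fin.natAdd N j)) * dE (Fin.natAdd N j),
    mul_mem (Algebra.subset_adjoin (Or.inl ⟨_, rfl⟩)) (Algebra.subset_adjoin (Or.inr ⟨_, rfl⟩)),
    fun k h => ?_⟩
  rw [Module.End.mul_apply, dE_apply, mulE_apply, pderiv_mul, THE_D_xin, mul_zero, add_zero,
    ← mul_assoc, THE_euler_ypow, map_mul]
  have h1 : xin r (C (k j : ℂ) : MvPolynomial (Fin N) ℂ) = C (k j : ℂ) := by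
    unfold xin
    rw [rename_C]
  rw [h1]
  ring

theorem THE_eval (a : MvPolynomial (Fin r) ℂ) : THE_Good (N := N) (r := r)
    (fun k h => C (MvPolynomial.eval (fun i => (k i : ℂ)) a) * h) := by
  induction a using MvPolynomial.induction_on with
  | C c => simpa using THE_const c
  | add p q hp hq =>
    have h1 := THE_add hp hq
    have h2 : (fun (k : Fin r → ℕ) (h : MvPolynomial (Fin N) ℂ) =>
        C (MvPolynomial.eval (fun i => (k i : ℂ)) (p + q)) * h) = fun k h =>
        C (MvPolynomial.eval (fun i => (k i : ℂ)) p) * h +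
          C (MvPolynomial.eval (fun i => (k i : ℂ)) q) * h := by
      funext k h
      rw [map_add, C_add, add_mul]
    rw [h2]
    exact h1
  | mul_X p j hp =>
    have h1 := THE_comp hp (THE_k j)
    have h2 : (fun (k : Fin r → ℕ) (h : MvPolynomial (Fin N) ℂ) =>
        C (MvPolynomial.eval (fun i => (k i : ℂ)) (p * X j)) * h) = fun k h =>
        C (MvPolynomial.eval (fun i => (k i : ℂ)) p) * (C (k j : ℂ) * h) := by
      funext k h
      rw [map_mul, MvPolynomial.eval_X, C_mul, mul_assoc]
    rw [h2]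
    exact h1

theorem THE_map (p : MvPolynomial (Fin N) (MvPolynomial (Fin r) ℂ)) : THE_Good (N := N) (r := r)
    (fun k h => MvPolynomial.map (MvPolynomial.eval (fun i => (k i : ℂ))) p * h) := by
  induction p using MvPolynomial.induction_on with
  | C a =>
    have h1 := THE_eval (N := N) a
    have h2 : (fun (k : Fin r → ℕ) (h : MvPolynomial (Fin N) ℂ) =>
        MvPolynomial.map (MvPolynomial.eval (fun i => (k i : ℂ)))
          (C a : MvPolynomial (Fin N) (MvPolynomial (Fin r) ℂ)) * h) = fun k h =>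
        C (MvPolynomial.eval (fun i => (k i : ℂ)) a) * h := by
      funext k h
      rw [MvPolynomial.map_C]
    rw [h2]
    exact h1
  | add p q hp hq =>
    have h1 := THE_add hp hq
    have h2 : (fun (k : Fin r → ℕ) (h : MvPolynomial (Fin N) ℂ) =>
        MvPolynomial.map (MvPolynomial.eval (fun i => (k i : ℂ))) (p + q) * h) = fun k h =>
        MvPolynomial.map (MvPolynomial.eval (fun i => (k i : ℂ))) p * h +
          MvPolynomial.map (MvPolynomial.eval (fun i => (k i : ℂ))) q * h := by
      funext k h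
      rw [map_add, add_mul]
    rw [h2]
    exact h1
  | mul_X p i hp =>
    have h1 := THE_comp hp (THE_X i)
    have h2 : (fun (k : Fin r → ℕ) (h : MvPolynomial (Fin N) ℂ) =>
        MvPolynomial.map (MvPolynomial.eval (fun i => (k i : ℂ))) (p * X i) * h) = fun k h =>
        MvPolynomial.map (MvPolynomial.eval (fun i => (k i : ℂ))) p * (X i * h) := by
      funext k h
      rw [map_mul, MvPolynomial.map_X, mul_assoc]
    rw [h2]
    exact h1

theorem THE_pow (i : Fin N) (m : ℕ) : THE_Good (N := N) (r := r) (fun _ h =>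
    (((pderiv i : Derivation ℂ (MvPolynomial (Fin N) ℂ) (MvPolynomial (Fin N) ℂ)).toLinearMap)
      ^ m) h) := by
  induction m with
  | zero => simpa using THE_id
  | succ m ih =>
    have h1 := THE_comp ih (THE_D (r := r) i)
    have h2 : (fun (_ : Fin r → ℕ) (h : MvPolynomial (Fin N) ℂ) =>
        (((pderiv i : Derivation ℂ (MvPolynomial (Fin N) ℂ)
          (MvPolynomial (Fin N) ℂ)).toLinearMap) ^ (m + 1)) h) = fun _ h =>
        (((pderiv i : Derivation ℂ (MvPolynomial (Fin N) ℂ)
          (MvPolynomial (Fin N) ℂ)).toLinearMap) ^ m) (pderiv i h) := by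
      funext k h
      rw [pow_succ, Module.End.mul_apply]
      rfl
    rw [h2]
    exact h1

theorem THE_list (l : List (Fin N)) (β : Fin N →₀ ℕ) : THE_Good (N := N) (r := r) (fun _ h =>
    ((l.map fun j =>
      ((pderiv j : Derivation ℂ (MvPolynomial (Fin N) ℂ) (MvPolynomial (Fin N) ℂ)).toLinearMap)
        ^ (β j)).prod) h) := by
  induction l with
  | nil => simpa using THE_id
  | cons a l ih =>
    have h1 := THE_comp (THE_pow (r := r) a (β a)) ih
    have h2 : (fun (_ : Fin r → ℕ) (h : MvPolynomial (Fin N) ℂ) => (((a :: l).map fun j =>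
      ((pderiv j : Derivation ℂ (MvPolynomial (Fin N) ℂ) (MvPolynomial (Fin N) ℂ)).toLinearMap)
        ^ (β j)).prod) h) = fun _ h =>
        (((pderiv a : Derivation ℂ (MvPolynomial (Fin N) ℂ)
          (MvPolynomial (Fin N) ℂ)).toLinearMap) ^ (β a)) (((l.map fun j =>
      ((pderiv j : Derivation ℂ (MvPolynomial (Fin N) ℂ) (MvPolynomial (Fin N) ℂ)).toLinearMap)
        ^ (β j)).prod) h) := by
      funext k h
      rw [List.map_cons, List.prod_cons, Module.End.mul_apply]
    rw [h2]
    exact h1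

theorem THE_diffPow (β : Fin N →₀ ℕ) :
    THE_Good (N := N) (r := r) (fun _ h => diffPow β h) :=
  THE_list (List.finRange N) β

/-- The operator `P(y ∂_y)`. -/
theorem exists_theta {N r : ℕ} (P : WeylR N r) : ∃ Φ ∈ WA (N + r), ∀ (k : Fin r → ℕ)
    (h : MvPolynomial (Fin N) ℂ), Φ (ypow N k * xin r h) =
      ypow N k * xin r (P.act (fun i => (k i : ℂ)) h) := by
  have h1 := THE_sum P.support
    (fun β k h => MvPolynomial.map (MvPolynomial.eval (fun i : Fin r => (k i : ℂ))) (P β) *
      diffPow β h) (fun β _ => THE_comp (THE_map (P β)) (THE_diffPow β))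
  exact h1

end Pool.Agent.H56.ID
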