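import Pool.Agent.H56.ID.OPS
import Pool.Agent.H56.ID.THE
import Pool.Agent.H56.ID.MCO
import Pool.Agent.H56.ID.REI
import Pool.Agent.H56.ID.GYP

/-!
# FEQ: from the functional equation of an ideal to that of `Σ y_j f_j`
-/

set_option autoImplicit false

namespace Pool.Agent.H56.ID

open Finset MvPolynomial
open Pool.Agent.H22

theorem FEQ_act_smul {N r : ℕ} (P : WeylR N r) (c : Fin r → ℂ) (x : ℂ)
    (g : MvPolynomial (Fin N) ℂ) : P.act c (C x * g) = C x * P.act c g := by
  unfold WeylR.act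
  rw [Finsupp.sum, Finsupp.sum, mul_sum]
  refine sum_congr rfl fun β _ => ?_
  rw [← smul_eq_C_mul, map_smul, smul_eq_C_mul]
  ring

/-- A functional equation of the ideal with `b` gives one of `g = Σ y_j f_j` with `(s+1) b`. -/
theorem ideal_fe {N r : ℕ} (f : Fin r → MvPolynomial (Fin N) ℂ) (b : Polynomial ℂ)
    (T : Finset (Fin r → ℤ)) (P : (Fin r → ℤ) → WeylR N r) (hP : IdealFE f b T P) :
    ∃ Q : WeylS (N + r), FunctionalEquation (gY f) ((Polynomial.X + 1) * b) Q := by
  classical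
  choose Θ hΘ1 hΘ2 using fun c => exists_theta (P c)
  choose Mc hM1 hM2 using fun c : Fin r → ℤ => exists_mc N c
  obtain ⟨Q, hQ⟩ := exists_act (∑ c ∈ T, Θ c * Mc c)
    (Subalgebra.sum_mem _ fun c _ => Subalgebra.mul_mem _ (hΘ1 c) (hM1 c))
  refine ⟨Q, fun m => ?_⟩
  rw [hQ, LinearMap.sum_apply]
  have hterm : ∀ c ∈ T, (Θ c * Mc c) (gY f ^ (m + 1)) =
      ∑ k ∈ (univ : Finset (Fin r)).piAntidiag m, (((m : ℂ) + 1) * (Nat.multinomial univ k : ℂ)) •
        (ypow N k * xin r ((P c).act (fun i => (k i : ℂ))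
        (C (∏ i with c i < 0, ((k i).choose (c i).natAbs : ℂ)) *
          ∏ i, f i ^ ((k i : ℤ) + c i).toNat))) := by
    intro c hc
    have h1 := reindex c (hP.1 c hc) m (fun k => ypow N k * xin r ((P c).act (fun i => (k i : ℂ))
          (∏ i, f i ^ ((k i : ℤ) + c i).toNat)))
    rw [gY_pow, map_sum]
    refine Eq.trans (Eq.trans (sum_congr rfl fun k' hk' => ?_) h1) (sum_congr rfl fun k hk => ?_)
    · rw [map_smul, Module.End.mul_apply, hM2, ← smul_eq_C_mul, map_smul, hΘ2, smul_smul]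
      by_cases h0 : ∃ j, (k' j : ℤ) < c j
      · obtain ⟨j, hj⟩ := h0
        have h2 : ∏ j, (if c j < 0 then (((c j).natAbs.factorial : ℂ))⁻¹ else
            (((k' j).descFactorial (c j).natAbs : ℕ) : ℂ)) = 0 := by
          refine prod_eq_zero (mem_univ j) ?_
          rw [if_neg (by omega), Nat.descFactorial_eq_zero_iff_lt.2 (by omega), Nat.cast_zero]
        rw [h2, mul_zero, zero_smul, zero_smul]
      · push Not at h0
        have h3 : ∀ i, (((((k' i : ℤ) - c i).toNat : ℕ) : ℤ) + c i).toNat = k' i := by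
          intro i
          have := h0 i
          omega
        simp only [h3]
    · rw [FEQ_act_smul, map_mul, ← algebraMap_eq, AlgHom.commutes, algebraMap_eq,
        mul_left_comm, ← smul_eq_C_mul, smul_smul]
  rw [sum_congr rfl hterm, sum_comm, gY_pow, mul_sum]
  refine sum_congr rfl fun k hk => ?_
  have hkm : ∑ i, k i = m := by
    rw [mem_piAntidiag] at hk
    exact hk.1
  rw [← smul_sum, ← mul_sum, ← map_sum, ← hP.2 k, map_mul, ← algebraMap_eq, AlgHom.commutes,
    algebraMap_eq]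
  have h4 : (∑ i, (k i : ℂ)) = m := by
    rw [← hkm]
    push_cast
    rfl
  rw [h4, smul_eq_C_mul, smul_eq_C_mul, Polynomial.eval_mul, Polynomial.eval_add,
    Polynomial.eval_X, Polynomial.eval_one, C_mul, C_mul]
  ring

end Pool.Agent.H56.ID
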